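import Pool.Agent.Helper46.NU.Goals1

set_option autoImplicit false

open MeasureTheory Filter Topology Set
open scoped ENNReal

noncomputable section

namespace NU.PkRND

theorem rho_snd (B : Set (ℕ → Bool)) : rho {s | s.2 ∈ B} = coin B := by
  unfold rho
  have h : {s : ℕ × (ℕ → Bool) | s.2 ∈ B} = Set.univ ×ˢ B := by
    ext s; simp
  rw [h, Measure.prod_prod, measure_univ, one_mul]

theorem meas_cyl (t : Finset ℕ) : MeasurableSet {x : ℕ → Bool | Cyl t x} := by
  have h : {x : ℕ → Bool | Cyl t x} =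
      ⋃ n : ℕ, {x : ℕ → Bool | LastN t n ∧ ∀ m, m < n → (x m = true ↔ m ∈ t)} := by
    ext x
    simp only [Cyl, mem_ofPred_eq, mem_iUnion]
  rw [h]
  refine MeasurableSet.iUnion fun n => ?_
  by_cases hn : LastN t n
  · simp only [hn, true_and]
    have h2 : {x : ℕ → Bool | ∀ m, m < n → (x m = true ↔ m ∈ t)} =
        ⋂ m : ℕ, {x : ℕ → Bool | m < n → (x m = true ↔ m ∈ t)} := by
      ext x; simp
    rw [h2]
    refine MeasurableSet.iInter fun m => ?_
    by_cases hm : m < n
    · by_cases hmt : m ∈ t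
      · simp only [hm, hmt, iff_true, forall_true_left]
        exact measurableSet_eq_fun (measurable_pi_apply m) measurable_const
      · simp only [hm, hmt, iff_false, forall_true_left]
        exact (measurableSet_eq_fun (measurable_pi_apply m) measurable_const).compl
    · simp [hm]
  · simp [hn]

theorem rnd (loc : G_LOC) (mz : G_MZ) (upd : G_UPD) (gm : G_GM) : G_RND := by
  classical
  intro S c₀ hg F hF Γ hΓ hFΓ
  refine Filter.Eventually.of_forall fun φ => ?_
  -- locality
  have hV : ClosedS S {c | c ≠ c₀ ∧ ¬ S.see c c₀} := by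
    rintro c ⟨_, hc2⟩ c' hcc'
    refine ⟨?_, fun h => hc2 (S.tr hcc' h)⟩
    rintro rfl
    exact hc2 hcc'
  have hupd : ∀ (k : ℕ) (ω : Om S) (s : ℕ × (ℕ → Bool)),
      F k (zz S φ (Function.update ω c₀ s)) = F k (zz S φ ω) := by
    intro k ω s
    apply hFΓ
    intro c hc
    refine loc S _ hV φ φ _ _ (fun _ _ _ => rfl) ?_ c (hΓ c hc)
    intro c' hc'
    exact Function.update_of_ne hc'.1 _ _
  have hz : ∀ ω : Om S, zz S φ ω c₀ = (ω c₀).2 := by
    intro ω
    funext n
    rw [zz_eq]
    simp [hg]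
  -- measurability
  have hG : ∀ k t, MeasurableSet {ω : Om S | t ∈ F k (zz S φ ω)} := fun k t => (mz S φ) (hF k t)
  have hM : ∀ k, MeasurableSet {p : (ℕ × (ℕ → Bool)) × Om S | p.1.2 ∈ OpenOf (F k (zz S φ p.2))} := by
    intro k
    have h : {p : (ℕ × (ℕ → Bool)) × Om S | p.1.2 ∈ OpenOf (F k (zz S φ p.2))} =
        ⋃ t : Finset ℕ, ({p | t ∈ F k (zz S φ p.2)} ∩ {p | Cyl t p.1.2}) := by
      ext p
      simp only [OpenOf, mem_ofPred_eq, mem_iUnion, mem_inter_iff]
    rw [h]
    refine MeasurableSet.iUnion fun t => ?_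
    refine MeasurableSet.inter ?_ ?_
    · exact measurable_snd (hG k t)
    · exact (measurable_snd.comp measurable_fst) (meas_cyl t)
  have hH : ∀ k, Measurable fun ω : Om S => coin (OpenOf (F k (zz S φ ω))) := by
    intro k
    have h := measurable_measure_prodMk_right (μ := rho) (hM k)
    have h2 : (fun ω : Om S => coin (OpenOf (F k (zz S φ ω)))) = fun ω : Om S =>
        rho ((fun s => (s, ω)) ⁻¹'
          {p : (ℕ × (ℕ → Bool)) × Om S | p.1.2 ∈ OpenOf (F k (zz S φ p.2))}) := by
      funext ω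
      rw [← rho_snd]
      rfl
    rw [h2]
    exact h
  -- the bound
  have key : ∀ k : ℕ, PP S {ω | zz S φ ω ∈ {z | ∀ k, Good k (F k z) ∧ z c₀ ∈ OpenOf (F k z)}} ≤
      (1 / 2) ^ k := by
    intro k
    set T : Set ((ℕ × (ℕ → Bool)) × Om S) :=
      {p | coin (OpenOf (F k (zz S φ p.2))) ≤ (1 / 2) ^ k ∧ p.1.2 ∈ OpenOf (F k (zz S φ p.2))}
      with hT
    have hTm : MeasurableSet T :=
      (measurableSet_le ((hH k).comp measurable_snd) measurable_const).inter (hM k)
    set A : Set (Om S) :=
      {ω | coin (OpenOf (F k (zz S φ ω))) ≤ (1 / 2) ^ k ∧ (ω c₀).2 ∈ OpenOf (F k (zz S φ ω))}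
      with hA
    have hAm : MeasurableSet A := by
      have : Measurable fun ω : Om S => (ω c₀, ω) := (measurable_pi_apply c₀).prodMk measurable_id
      exact this hTm
    have hsub : {ω | zz S φ ω ∈ {z | ∀ k, Good k (F k z) ∧ z c₀ ∈ OpenOf (F k z)}} ⊆ A := by
      intro ω hω
      obtain ⟨h1, h2⟩ := hω k
      refine ⟨gm k _ h1, ?_⟩
      rw [hz] at h2
      exact h2
    refine (measure_mono hsub).trans ?_
    have hupdm : Measurable fun p : (ℕ × (ℕ → Bool)) × (S.C → ℕ × (ℕ → Bool)) =>
        Function.update p.2 c₀ p.1 := by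
      rw [measurable_pi_iff]
      intro c
      by_cases hc : c = c₀
      · subst hc
        simp only [Function.update_self]
        exact measurable_fst
      · simp only [Function.update_of_ne hc]
        exact (measurable_pi_apply c).comp measurable_snd
    have h1 : PP S A = (rho.prod (PP S)) T := by
      have h2 : PP S = Measure.map (fun p : (ℕ × (ℕ → Bool)) × (S.C → ℕ × (ℕ → Bool)) =>
          Function.update p.2 c₀ p.1) (rho.prod (PP S)) := (upd S.C _ rho c₀).symm
      conv_lhs => rw [h2]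
      rw [Measure.map_apply hupdm hAm]
      congr 1
      ext p
      simp only [hA, hT, mem_preimage, mem_ofPred_eq, hupd, Function.update_self]
    rw [h1, Measure.prod_apply_symm hTm]
    calc ∫⁻ ω, rho ((fun s => (s, ω)) ⁻¹' T) ∂(PP S) ≤ ∫⁻ _, (1 / 2) ^ k ∂(PP S) := by
          refine lintegral_mono fun ω => ?_
          by_cases hω : coin (OpenOf (F k (zz S φ ω))) ≤ (1 / 2) ^ k
          · have h3 : (fun s => (s, ω)) ⁻¹' T ⊆ {s | s.2 ∈ OpenOf (F k (zz S φ ω))} :=
              fun s hs => hs.2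
            refine (measure_mono h3).trans ?_
            rw [rho_snd]
            exact hω
          · have h3 : (fun s => (s, ω)) ⁻¹' T = ∅ := by
              ext s
              simp only [mem_preimage, mem_empty_iff_false, iff_false]
              exact fun h => hω h.1
            rw [h3, measure_empty]
            exact zero_le
      _ = (1 / 2) ^ k := by rw [lintegral_const, measure_univ, mul_one]
  have hlim : Tendsto (fun k : ℕ => ((1 / 2 : ℝ≥0∞)) ^ k) atTop (𝓝 0) := by
    apply ENNReal.tendsto_pow_atTop_nhds_zero_of_lt_one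
    rw [one_div]
    exact ENNReal.inv_lt_one.2 (by norm_num)
  have h0 := ge_of_tendsto' hlim key
  exact le_antisymm h0 zero_le

end NU.PkRND

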